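import Pool.Agent.R612.HU.Def

/-!
`AHP_0⁺` is relatively interpretable in `AHP_0`: a positive answer to Q2 of MP_b82597_lc.

The interpretation keeps the objects. It keeps those relations that have a small support, i.e. are
invariant under changes of the arguments outside of a small set, and it changes `#`: the sets with a
small support are small or have a small complement, and they get new numbers.
-/

set_option autoImplicit false

namespace Pool.Agent.Results.MP_b82597_lc.ColumnSymbol

open Pool.Agent.R612.HU

theorem result : ∃ I : Interp, ∀ M : Str false, AHP M →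
    ∃ (num : {X // I.Dom M 0 X} → M.O) (col : {R // I.Dom M 1 R} → M.O → M.O)
      (h : I.Defines M num col), AHP (I.str h) := by
  choose sm hsm using Df.sm
  obtain ⟨nu, hnu⟩ := Df.nu 0 0
  obtain ⟨ga, hga⟩ := Df.ga
  refine ⟨⟨sm, nu, ga⟩, fun M hM => ?_⟩
  have hD : ∀ k R, Interp.Dom ⟨sm, nu, ga⟩ M k R ↔ Sm M k R := by
    intro k R
    constructor
    · intro h
      have h1 := h (fun _ => M.neO.some)
        (Function.update (fun k _ => (M.neR k).some) k (fun _ => R)) (by simp)
      rw [hsm k M hM] at h1
      simpa using h1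
    · rintro h o r rfl
      exact (hsm k M hM o r).2 h
  have hN : ∀ X y, Interp.Num ⟨sm, nu, ga⟩ M X y ↔ Nu M {x | M.m X x} y := by
    intro X y
    constructor
    · intro h
      have h1 := h (fun _ => y)
        (Function.update (fun k _ => (M.neR k).some) 0 (fun _ => X)) (by simp) rfl
      rw [hnu M hM] at h1
      exact h1
    · rintro h o r rfl rfl
      exact (hnu M hM o r).2 h
  have hG : ∀ R n y, Interp.Col ⟨sm, nu, ga⟩ M R n y ↔ Nu M {x | M.b R n x} y := by
    intro R n y
    constructor
    · intro h
      have h1 := h (push n (fun _ => y))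
        (Function.update (fun k _ => (M.neR k).some) 1 (fun _ => R)) (by simp) rfl rfl
      rw [hga M hM] at h1
      exact h1
    · rintro h o r rfl rfl rfl
      exact (hga M hM o r).2 h
  have hne : ∀ k, Nonempty {R // Interp.Dom ⟨sm, nu, ga⟩ M k R} := by
    intro k
    obtain ⟨R, hR⟩ := hM.compr (.neg (.eq 0 0)) trivial k (fun _ => M.neO.some)
      (fun k _ => (M.neR k).some)
    refine ⟨R, (hD k R).2 ⟨∅, J2.empty hM, fun a b _ h => ?_⟩⟩
    rw [hR] at h
    exact (h rfl).elim
  have h0 : ∀ X : {X // Interp.Dom ⟨sm, nu, ga⟩ M 0 X}, ∃ y, Nu M {x | M.m X.1 x} y :=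
    fun X => Nu.exists hM ((sm0_iff _).1 ((hD _ _).1 X.2))
  have h1 : ∀ (R : {R // Interp.Dom ⟨sm, nu, ga⟩ M 1 R}) (n : M.O),
      ∃ y, Nu M {x | M.b R.1 n x} y :=
    fun R n => Nu.exists hM (((sm1_iff _).1 ((hD _ _).1 R.2)).row hM n)
  choose num hnum using h0
  choose col hcol using h1
  refine ⟨num, col, ⟨fun X y => ?_, fun R n y => ?_, hne⟩, prime_ahp hM hD hnum hcol⟩
  · rw [hN]
    constructor
    · rintro rfl
      exact hnum X
    · intro h
      exact (hnum X).unique hM h
  · rw [hG]
    constructor
    · rintro rfl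
      exact hcol R n
    · intro h
      exact (hcol R n).unique hM h

end Pool.Agent.Results.MP_b82597_lc.ColumnSymbol
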